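import Pool.Agent.MP_fafc5c_gt.Final

set_option autoImplicit false

open Pool.Agent.MP_fafc5c_gt

/-- The quadrilaterals that arise by iterated mutation from the rectangle `R_{a,b}`.
Every polygon that arises is a triangle or a convex quadrilateral, and a convex quadrilateral `Q`
is integral affine equivalent to one that arises (with or without the extra requirement that
branch cuts never cross) if and only if `Q` is `Good`: all its corners are of type
`1/p² (1, pq-1)`, the eigenvectors at its corners agree modulo `2`, its affine perimeter is
`2 (a + b)` and its area is `a b`. -/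
theorem Pool.Agent.Results.MP_fafc5c_gt.Characterisation.result
    (a b : ℝ) (ha : 0 < a) (hb : 0 < b) :
    (∀ P : Set (ℝ × ℝ), Arises a b P → IsTriangle P ∨ IsQuadrilateral P) ∧
    (∀ Q : Set (ℝ × ℝ), IsQuadrilateral Q → List.TFAE
      [∃ P, Arises a b P ∧ IntAffEquiv P Q,
       ∃ P, ArisesNC a b P ∧ IntAffEquiv P Q,
       Good a b Q]) :=
  main ha hb
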